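import Pool.Agent.Helper38.WY.Goals3
import Pool.Agent.Helper83.PB.XLIF

/-!
# Project WY (MP_fc6b1e_nt), packet WY-F_LIF
-/

set_option autoImplicit false

namespace Pool.Agent.Helper53.WY

open NumberField Module IsDedekindDomain
open Pool.Agent.Helper51.RP Pool.Agent.Helper42.RD Pool.Agent.Helper42.PP Pool.Agent.Helper76.PB
open Pool.Agent.Helper83.PB
open Pool.Agent.Helper40.RS (bel gw val_smul bel_smul)
open Pool.Agent.Helper40.RD (bel_of_above)
open Pool.Agent.Helper32.PP (val_gal bel_gw norm_coe)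
open scoped Pointwise

theorem f_lif (h1 : Pool.Agent.Helper38.WY.F_LIN) (h2 : Pool.Agent.Helper76.PB.X_INJ) :
    Pool.Agent.Helper38.WY.F_LIF := by
  classical
  intro p _ F E₁ E₂ _ _ _ _ _ _ _ _ _ _ _ _ _ _ ε hε hE1 hE2 Z hZ hab hunr hpr hprE f hf hnf
    w₀ hw₀
  obtain ⟨Z', hZ', hsub, hw0', hinj⟩ := h2 p F ε hε Z hZ hab hpr w₀ hw₀.1
  choose z hz using exists_div hpr
  have hDf : (Z' \ Z).Finite := hZ'.subset Set.sdiff_subset
  set D : Finset (HeightOneSpectrum (𝓞 F)) := hDf.toFinset with hD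
  have hmem : ∀ v, v ∈ D ↔ v ∈ Z' ∧ v ∉ Z := fun v ↦ by rw [hD, Set.Finite.mem_toFinset]; rfl
  set f' : Fˣ → ZMod p := fun x ↦ f x - ∑ v ∈ D, ((ordv v (x : F) : ℤ) : ZMod p) * f (z v) with hf'
  have hhom : Hom f' := by
    intro x y
    simp only [hf']
    rw [hf.hom]
    have : ∀ v : HeightOneSpectrum (𝓞 F), ordv v ((x * y : Fˣ) : F) =
        ordv v (x : F) + ordv v (y : F) := fun v ↦ hom_ordv v x y
    simp only [this, Int.cast_add, add_mul, Finset.sum_add_distrib]
    ring
  have hkil : Kil p Z' f' := by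
    refine ⟨hhom, fun x hx ↦ ?_, fun x hx ↦ ?_⟩
    · obtain ⟨y, hy⟩ := hx
      have h3 : f x = 0 := hf.loc x ⟨y, fun w hw ↦ hy w (hsub hw)⟩
      have h4 : ∀ v ∈ D, ((ordv v (x : F) : ℤ) : ZMod p) * f (z v) = 0 := by
        intro v hv
        have h5 := (hy v ((hmem v).1 hv).1).1
        have h6 := Valuation.map_eq_of_sub_lt (v.valuation F) (x := 1) (y := (x : F) * (y : F) ^ p)
          (by rwa [map_one])
        rw [map_one] at h6
        have h7 : ordv v ((x * y ^ p : Fˣ) : F) = 0 := by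
          apply ordv_of_val
          rw [Units.val_mul, Units.val_pow_eq_pow_val]
          exact h6
        have h8 : ordv v ((x * y ^ p : Fˣ) : F) = ordv v (x : F) + p • ordv v (y : F) := by
          have e1 := hom_ordv v x (y ^ p)
          have e2 := hom_pow (hom_ordv v) y p
          simp only at e1 e2
          rw [e1, e2]
        rw [h7] at h8
        have h9 : ordv v (x : F) = -(p * ordv v (y : F)) := by
          rw [nsmul_eq_mul] at h8
          linarith
        rw [h9]
        push_cast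
        rw [CharP.cast_eq_zero]
        ring
      simp only [hf']
      rw [h3, Finset.sum_eq_zero h4, sub_zero]
    · set k : Fˣ := ∏ v ∈ D, z v ^ ordv v (x : F) with hk
      have hu : x * k⁻¹ ∈ Z.unit F := by
        refine unit_of_ordv fun w hw ↦ ?_
        have e1 := hom_ordv w x k⁻¹
        have e2 := hom_inv (hom_ordv w) k
        have e3 := hom_prod (hom_ordv w) D fun v ↦ z v ^ ordv v (x : F)
        simp only at e1 e2 e3
        rw [e1, e2, hk, e3]
        have e4 : ∀ v ∈ D, ordv w ((z v ^ ordv v (x : F) : Fˣ) : F) =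
            if w = v then ordv v (x : F) else 0 := by
          intro v _
          have e5 := hom_zpow (hom_ordv w) (z v) (ordv v (x : F))
          rw [e5, hz v w hw]
          split_ifs <;> simp
        rw [Finset.sum_congr rfl e4, Finset.sum_ite_eq]
        split_ifs with h
        · ring
        · have h3 : w ∉ Z' := fun h' ↦ h ((hmem w).2 ⟨h', hw⟩)
          rw [ordv_of_val (hx w h3)]
          ring
      have h3 := hf.unit _ hu
      rw [hf.hom, hom_inv hf.hom, hk, hom_prod hf.hom] at h3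
      have h4 : ∑ v ∈ D, f (z v ^ ordv v (x : F)) =
          ∑ v ∈ D, ((ordv v (x : F) : ℤ) : ZMod p) * f (z v) := by
        refine Finset.sum_congr rfl fun v _ ↦ ?_
        rw [hom_zpow hf.hom, zsmul_eq_mul]
      rw [h4] at h3
      simp only [hf']
      linear_combination h3
  have hnf' : ∀ y : E₂ˣ, f' (nrm F E₂ y) = 0 := by
    intro y
    simp only [hf']
    rw [hnf, zero_sub, neg_eq_zero]
    refine Finset.sum_eq_zero fun v hv ↦ ?_
    have hvZ := ((hmem v).1 hv).2
    obtain ⟨W, hW⟩ := exists_above (E := E₂) v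
    obtain ⟨k, hk⟩ := sum_orbit (F := F) W fun W' ↦ ordv W' (y : E₂)
    rw [ordv_nrm (hunr v hvZ W hW), hk]
    have h3 := dec_kill hunr hprE hf hnf hvZ hW (hz v)
    push_cast
    linear_combination (k : ZMod p) * h3
  have hV := h1 p F E₁ E₂ ε hε hE1 hE2 Z' hZ' (hab.trans hsub)
    (fun v hv ↦ hunr v fun h ↦ hv (hsub h)) (prZ_mono hsub hpr) hinj
    (prZ_mono (upZ_mono hsub) hprE) f' hkil hnf' w₀ ⟨hw0', hw₀.2⟩
  intro x hx
  have h3 := hV x fun w' hw' ↦ hx w' fun h ↦ hw' (hsub h)
  simp only [hf'] at h3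
  rw [Finset.sum_eq_zero, sub_zero] at h3
  · exact h3
  · intro v hv
    obtain ⟨v1, v2⟩ := (hmem v).1 hv
    rw [(hx v v2).2 (by rintro rfl; exact hw0' v1)]
    push_cast
    ring

end Pool.Agent.Helper53.WY
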